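import Pool.Agent.FPF.St

/-!
# Kerov's identities for the weight `Fw`

`Ker_diff`, `Ker_same`: sums over all rows `i` of `Pr R y i` divided by the products of content
differences to two removable boxes. `Ker_sq`: the relation for two boxes added in two rows.
-/

set_option autoImplicit false

open Finset
open scoped Nat BigOperators

namespace Pool.Agent.FPF

open Pool.Agent.Helper51.RT

private theorem Ker_lt {R : ℕ} {x : ℕ → ℕ} (hx : Antitone x) {i j : ℕ} (hij : i < j)
    (hj : j < R) : lc R x j < lc R x i := by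
  have h1 : x j ≤ x i := hx hij.le
  unfold lc
  omega

private theorem Ker_inj {R : ℕ} {x : ℕ → ℕ} (hx : Antitone x) :
    Set.InjOn (fun i => (lc R x i : ℝ)) (range R : Finset ℕ) := by
  intro i hi j hj hij
  have hi' : i < R := by simpa using hi
  have hj' : j < R := by simpa using hj
  have hij2 : (lc R x i : ℝ) = (lc R x j : ℝ) := hij
  have h : lc R x i = lc R x j := by exact_mod_cast hij2
  rcases lt_trichotomy i j with h1 | h1 | h1
  · have := Ker_lt hx h1 hj'
    omega
  · exact h1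
  · have := Ker_lt hx h1 hi'
    omega

open Polynomial in
/-- Lagrange interpolation of a polynomial of small degree -/
private theorem Ker_lag {ι : Type*} [DecidableEq ι] (s : Finset ι) (v : ι → ℝ)
    (hv : Set.InjOn v s) (P : ℝ[X]) (hP : P.natDegree + 1 < s.card) :
    ∑ i ∈ s, P.eval (v i) / ∏ j ∈ s.erase i, (v i - v j) = 0 := by
  have h1 : P.degree < (s.card : ℕ) := by
    refine lt_of_le_of_lt Polynomial.degree_le_natDegree ?_
    exact_mod_cast (by omega : P.natDegree < s.card)
  have h2 := Lagrange.coeff_eq_sum (F := ℝ) (s := s) (v := v) hv h1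
  rw [Polynomial.coeff_eq_zero_of_natDegree_lt (by omega)] at h2
  exact h2.symm

open Polynomial in
private theorem Ker_poly (T : Finset ℕ) (l : ℕ → ℝ) :
    ∃ P : ℝ[X], P.natDegree = T.card ∧ ∀ t : ℝ, P.eval t = ∏ j ∈ T, (t - l j + 1) := by
  refine ⟨∏ j ∈ T, (X - C (l j - 1)), ?_, fun t => ?_⟩
  · rw [natDegree_prod_of_monic _ _ fun j _ => monic_X_sub_C _]
    rw [Finset.sum_congr rfl fun j _ => natDegree_X_sub_C (l j - 1)]
    simp
  · rw [eval_prod]
    refine Finset.prod_congr rfl fun j _ => ?_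
    rw [eval_sub, eval_X, eval_C]
    ring

/-- `Pr` as a quotient of two products -/
private theorem Ker_pr {N n : ℕ} {y : ℕ → ℕ} (hy : y ∈ Sh (N + 1) n) (hN : n < N + 1) {i : ℕ}
    (hi : i ∈ range (N + 1)) :
    Pr (N + 1) y i = (∏ j ∈ range N, ((lc (N + 1) y i : ℝ) - lc (N + 1) y j + 1)) /
      ∏ j ∈ (range (N + 1)).erase i, ((lc (N + 1) y i : ℝ) - lc (N + 1) y j) := by
  obtain ⟨hanti, -, -⟩ := mem_Sh.1 hy
  have hinj := Ker_inj (R := N + 1) hanti
  have h0 : (lc (N + 1) y N : ℝ) = 0 := by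
    have h1 : y N = 0 := Sh_zero hy (by omega)
    have h2 : lc (N + 1) y N = 0 := by
      unfold lc
      omega
    rw [h2]
    norm_num
  set l : ℕ → ℝ := fun i => (lc (N + 1) y i : ℝ) with hl
  have hi' : i < N + 1 := mem_range.1 hi
  have hne : ∀ j ∈ (range (N + 1)).erase i, l i - l j ≠ 0 := by
    intro j hj
    rw [mem_erase] at hj
    intro h
    exact hj.1 (hinj (by simpa using hj.2) (by simpa using hi') (by
      show l j = l i
      linarith))
  have hnum : ∏ j ∈ (range (N + 1)).erase i, (1 + 1 / (l i - l j)) =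
      (∏ j ∈ (range (N + 1)).erase i, (l i - l j + 1)) /
        ∏ j ∈ (range (N + 1)).erase i, (l i - l j) := by
    rw [← Finset.prod_div_distrib]
    refine Finset.prod_congr rfl fun j hj => ?_
    have := hne j hj
    field_simp
  have hprod : ∏ j ∈ (range (N + 1)).erase i, (l i - l j + 1) =
      (∏ j ∈ range N, (l i - l j + 1)) * (l i + 1) := by
    have h1 : (l i - l i + 1) * ∏ j ∈ (range (N + 1)).erase i, (l i - l j + 1) =
        ∏ j ∈ range (N + 1), (l i - l j + 1) :=
      Finset.mul_prod_erase (range (N + 1)) (fun j => l i - l j + 1) hi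
    rw [sub_self, zero_add, one_mul, Finset.prod_range_succ] at h1
    rw [h1]
    have : l N = 0 := h0
    rw [this, sub_zero]
  have hpos : (0 : ℝ) < l i + 1 := by
    have : (0 : ℝ) ≤ l i := Nat.cast_nonneg _
    linarith
  show (∏ j ∈ (range (N + 1)).erase i, (1 + 1 / (l i - l j))) / (l i + 1) =
    (∏ j ∈ range N, (l i - l j + 1)) / ∏ j ∈ (range (N + 1)).erase i, (l i - l j)
  rw [hnum, hprod]
  have hD : ∏ j ∈ (range (N + 1)).erase i, (l i - l j) ≠ 0 := Finset.prod_ne_zero_iff.2 hne
  field_simp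

/-- the content difference of an addable and a removable box is not zero -/
theorem Ker_ne {R n : ℕ} {y : ℕ → ℕ} (hy : y ∈ Sh R n) {i k : ℕ} (hi : i < R) (hk : k < R)
    (h : CanRem y k) : (lc R y i : ℝ) + 1 - lc R y k ≠ 0 := by
  obtain ⟨hanti, -, -⟩ := mem_Sh.1 hy
  intro h0
  have h1 : (lc R y i : ℝ) + 1 = lc R y k := by linarith
  have h2 : lc R y i + 1 = lc R y k := by exact_mod_cast h1
  unfold CanRem at h
  rcases lt_trichotomy i k with h3 | h3 | h3
  · have := Ker_lt hanti h3 hk
    omega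
  · subst h3
    omega
  · have h4 : y i ≤ y (k + 1) := hanti (by omega)
    unfold lc at h2
    omega

/-- two different removable rows -/
theorem Ker_diff {R n : ℕ} {y : ℕ → ℕ} (hy : y ∈ Sh R n) (hR : n < R) {k k' : ℕ} (hk : k < R)
    (hk' : k' < R) (h : CanRem y k) (h' : CanRem y k') (hne : k ≠ k') :
    ∑ i ∈ range R, Pr R y i / (((lc R y i : ℝ) + 1 - lc R y k) *
      ((lc R y i : ℝ) + 1 - lc R y k')) = 0 := by
  obtain ⟨N, rfl⟩ : ∃ N, R = N + 1 := ⟨R - 1, by omega⟩
  obtain ⟨hanti, -, -⟩ := mem_Sh.1 hy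
  have hinj := Ker_inj (R := N + 1) hanti
  have hrow : ∀ k, k < N + 1 → CanRem y k → k < N := by
    intro k hk hc
    by_contra hcon
    have h1 : y k = 0 := Sh_zero hy (by omega)
    unfold CanRem at hc
    omega
  have hkN := hrow k hk h
  have hkN' := hrow k' hk' h'
  obtain ⟨P, hP1, hP2⟩ := Ker_poly (((range N).erase k).erase k') (fun j => (lc (N + 1) y j : ℝ))
  have hmem : k' ∈ (range N).erase k := mem_erase.2 ⟨hne.symm, mem_range.2 hkN'⟩
  have hcard : (((range N).erase k).erase k').card = N - 2 := by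
    rw [card_erase_of_mem hmem, card_erase_of_mem (mem_range.2 hkN), card_range]
    omega
  have key := Ker_lag (range (N + 1)) (fun i => (lc (N + 1) y i : ℝ)) hinj P (by
    rw [hP1, hcard, card_range]
    omega)
  rw [← key]
  refine Finset.sum_congr rfl fun i hi => ?_
  have hi' : i < N + 1 := mem_range.1 hi
  have e1 := Ker_ne hy hi' hk h
  have e2 := Ker_ne hy hi' hk' h'
  rw [Ker_pr hy hR hi, hP2]
  have h3 : ∏ j ∈ range N, ((lc (N + 1) y i : ℝ) - lc (N + 1) y j + 1) =
      ((lc (N + 1) y i : ℝ) + 1 - lc (N + 1) y k) * (((lc (N + 1) y i : ℝ) + 1 -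
        lc (N + 1) y k') * ∏ j ∈ ((range N).erase k).erase k',
          ((lc (N + 1) y i : ℝ) - lc (N + 1) y j + 1)) := by
    rw [← Finset.mul_prod_erase (range N) _ (mem_range.2 hkN),
      ← Finset.mul_prod_erase ((range N).erase k) _ hmem]
    ring
  rw [h3, div_div, mul_comm (∏ j ∈ (range (N + 1)).erase i, _), ← div_div, ← mul_assoc,
    mul_div_cancel_left₀ _ (mul_ne_zero e1 e2)]

/-- the same removable row twice -/
theorem Ker_same {R n : ℕ} {y : ℕ → ℕ} (hy : y ∈ Sh R n) (hR : n < R) {k : ℕ} (hk : k < R)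
    (h : CanRem y k) :
    ∑ i ∈ range R, Pr R y i / (((lc R y i : ℝ) + 1 - lc R y k) *
      ((lc R y i : ℝ) + 1 - lc R y k)) = 1 / Qr R y k := by
  obtain ⟨N, rfl⟩ : ∃ N, R = N + 1 := ⟨R - 1, by omega⟩
  obtain ⟨hanti, -, -⟩ := mem_Sh.1 hy
  have hinj := Ker_inj (R := N + 1) hanti
  have hkN : k < N := by
    by_contra hcon
    have h1 : y k = 0 := Sh_zero hy (by omega)
    unfold CanRem at h
    omega
  have h0 : (lc (N + 1) y N : ℝ) = 0 := by
    have h1 : y N = 0 := Sh_zero hy (by omega)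
    have h2 : lc (N + 1) y N = 0 := by
      unfold lc
      omega
    rw [h2]
    norm_num
  have hl1 : (1 : ℝ) ≤ lc (N + 1) y k := by
    have h1 : 1 ≤ lc (N + 1) y k := by
      unfold CanRem at h
      unfold lc
      omega
    exact_mod_cast h1
  obtain ⟨P, hP1, hP2⟩ := Ker_poly ((range N).erase k) (fun j => (lc (N + 1) y j : ℝ))
  have hcard : ((range N).erase k).card = N - 1 := by
    rw [card_erase_of_mem (mem_range.2 hkN), card_range]
  have hrec : ∀ i, i < N + 1 → (lc (N + 1) y i : ℝ) - (lc (N + 1) y k - 1) ≠ 0 := by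
    intro i hi
    have := Ker_ne hy hi hk h
    intro h2
    exact this (by linarith)
  -- nodes: the rows and one more node
  have hinj2 : Set.InjOn (fun o : Option ℕ => o.elim ((lc (N + 1) y k : ℝ) - 1)
      fun i => (lc (N + 1) y i : ℝ)) (insertNone (range (N + 1)) : Finset (Option ℕ)) := by
    intro a ha b hb hab
    rcases a with _ | a <;> rcases b with _ | b
    · rfl
    · exfalso
      have hb' : b < N + 1 := by simpa using hb
      have h2 : (lc (N + 1) y k : ℝ) - 1 = lc (N + 1) y b := hab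
      exact hrec b hb' (by linarith)
    · exfalso
      have ha' : a < N + 1 := by simpa using ha
      have h2 : (lc (N + 1) y a : ℝ) = (lc (N + 1) y k : ℝ) - 1 := hab
      exact hrec a ha' (by linarith)
    · have ha' : a ∈ (range (N + 1) : Finset ℕ) := by simpa using ha
      have hb' : b ∈ (range (N + 1) : Finset ℕ) := by simpa using hb
      have h2 : (lc (N + 1) y a : ℝ) = lc (N + 1) y b := hab
      rw [hinj (by simpa using ha') (by simpa using hb') h2]
  have key := Ker_lag (insertNone (range (N + 1))) _ hinj2 P (by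
    rw [hP1, hcard, card_insertNone, card_range]
    omega)
  have hsplit : ∀ f : Option ℕ → ℝ, ∑ o ∈ insertNone (range (N + 1)), f o =
      f none + ∑ i ∈ range (N + 1), f (some i) := by
    intro f
    rw [Finset.sum_insertNone]
  rw [hsplit] at key
  have hnone : ∏ j ∈ (insertNone (range (N + 1))).erase none,
      ((none : Option ℕ).elim ((lc (N + 1) y k : ℝ) - 1) (fun i => (lc (N + 1) y i : ℝ)) -
        j.elim ((lc (N + 1) y k : ℝ) - 1) fun i => (lc (N + 1) y i : ℝ)) =
      ∏ j ∈ range (N + 1), ((lc (N + 1) y k : ℝ) - 1 - lc (N + 1) y j) := by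
    have h2 : (insertNone (range (N + 1))).erase none =
        (range (N + 1)).map Function.Embedding.some := by
      ext o
      rcases o with _ | o <;> simp
    rw [h2, Finset.prod_map]
    rfl
  have hsome : ∀ i ∈ range (N + 1), ∏ j ∈ (insertNone (range (N + 1))).erase (some i),
      ((some i : Option ℕ).elim ((lc (N + 1) y k : ℝ) - 1) (fun i => (lc (N + 1) y i : ℝ)) -
        j.elim ((lc (N + 1) y k : ℝ) - 1) fun i => (lc (N + 1) y i : ℝ)) =
      ((lc (N + 1) y i : ℝ) + 1 - lc (N + 1) y k) *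
        ∏ j ∈ (range (N + 1)).erase i, ((lc (N + 1) y i : ℝ) - lc (N + 1) y j) := by
    intro i hi
    have h2 : (insertNone (range (N + 1))).erase (some i) =
        insertNone ((range (N + 1)).erase i) := by
      ext o
      rcases o with _ | o
      · simp
      · simp
    rw [h2, Finset.prod_insertNone]
    show ((lc (N + 1) y i : ℝ) - (lc (N + 1) y k - 1)) * ∏ j ∈ (range (N + 1)).erase i,
      ((lc (N + 1) y i : ℝ) - lc (N + 1) y j) = _
    ring
  rw [hnone, hP2, Finset.sum_congr rfl fun i hi => by rw [hsome i hi]] at key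
  -- compare
  have hQ : Qr (N + 1) y k * ∏ j ∈ (range N).erase k, ((lc (N + 1) y k : ℝ) - lc (N + 1) y j) =
      ∏ j ∈ (range (N + 1)).erase k, ((lc (N + 1) y k : ℝ) - 1 - lc (N + 1) y j) := by
    have hne : ∀ j ∈ (range (N + 1)).erase k, (lc (N + 1) y k : ℝ) - lc (N + 1) y j ≠ 0 := by
      intro j hj
      rw [mem_erase] at hj
      intro h5
      exact hj.1 (hinj (by simpa using hj.2) (by simpa using hk) (by
        show (lc (N + 1) y j : ℝ) = lc (N + 1) y k
        linarith))
    have h6 : ∏ j ∈ (range (N + 1)).erase k, ((lc (N + 1) y k : ℝ) - lc (N + 1) y j) =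
        (lc (N + 1) y k : ℝ) * ∏ j ∈ (range N).erase k,
          ((lc (N + 1) y k : ℝ) - lc (N + 1) y j) := by
      have h7 : (range (N + 1)).erase k = insert N ((range N).erase k) := by
        ext j
        rw [mem_erase, mem_insert, mem_erase, mem_range, mem_range]
        omega
      rw [h7, Finset.prod_insert (by simp), h0, sub_zero]
    have h8 : (∏ j ∈ (range (N + 1)).erase k, (1 - 1 / ((lc (N + 1) y k : ℝ) -
        lc (N + 1) y j))) *
        ∏ j ∈ (range (N + 1)).erase k, ((lc (N + 1) y k : ℝ) - lc (N + 1) y j) =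
        ∏ j ∈ (range (N + 1)).erase k, ((lc (N + 1) y k : ℝ) - 1 - lc (N + 1) y j) := by
      rw [← Finset.prod_mul_distrib]
      refine Finset.prod_congr rfl fun j hj => ?_
      have := hne j hj
      field_simp
      ring
    unfold Qr
    rw [← h8, h6]
    ring
  have hQ0 : ∏ j ∈ (range (N + 1)).erase k, ((lc (N + 1) y k : ℝ) - 1 - lc (N + 1) y j) ≠ 0 := by
    refine Finset.prod_ne_zero_iff.2 fun j hj => ?_
    rw [mem_erase, mem_range] at hj
    have := hrec j hj.2
    intro h2
    exact this (by linarith)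
  have hQr : Qr (N + 1) y k ≠ 0 := by
    intro h2
    rw [h2, zero_mul] at hQ
    exact hQ0 hQ.symm
  have hfull : ∏ j ∈ range (N + 1), ((lc (N + 1) y k : ℝ) - 1 - lc (N + 1) y j) =
      - ∏ j ∈ (range (N + 1)).erase k, ((lc (N + 1) y k : ℝ) - 1 - lc (N + 1) y j) := by
    rw [← Finset.mul_prod_erase (range (N + 1)) _ (mem_range.2 hk)]
    ring
  have hPk : ∏ j ∈ (range N).erase k, ((lc (N + 1) y k : ℝ) - 1 - lc (N + 1) y j + 1) =
      ∏ j ∈ (range N).erase k, ((lc (N + 1) y k : ℝ) - lc (N + 1) y j) :=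
    Finset.prod_congr rfl fun j _ => by ring
  have hfirst : (∏ j ∈ (range N).erase k, ((lc (N + 1) y k : ℝ) - 1 - lc (N + 1) y j + 1)) /
      ∏ j ∈ range (N + 1), ((lc (N + 1) y k : ℝ) - 1 - lc (N + 1) y j) =
      - (1 / Qr (N + 1) y k) := by
    rw [hPk, hfull, ← hQ]
    have h9 : ∏ j ∈ (range N).erase k, ((lc (N + 1) y k : ℝ) - lc (N + 1) y j) ≠ 0 := by
      intro h2
      rw [h2, mul_zero] at hQ
      exact hQ0 hQ.symm
    field_simp
  have hsum : ∑ i ∈ range (N + 1), Pr (N + 1) y i / (((lc (N + 1) y i : ℝ) + 1 -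
      lc (N + 1) y k) * ((lc (N + 1) y i : ℝ) + 1 - lc (N + 1) y k)) =
      ∑ i ∈ range (N + 1), P.eval ((some i : Option ℕ).elim ((lc (N + 1) y k : ℝ) - 1)
        fun i => (lc (N + 1) y i : ℝ)) / (((lc (N + 1) y i : ℝ) + 1 - lc (N + 1) y k) *
        ∏ j ∈ (range (N + 1)).erase i, ((lc (N + 1) y i : ℝ) - lc (N + 1) y j)) := by
    refine Finset.sum_congr rfl fun i hi => ?_
    have hi' : i < N + 1 := mem_range.1 hi
    have e1 := Ker_ne hy hi' hk h
    rw [Ker_pr hy hR hi, hP2]
    have h3 : ∏ j ∈ range N, ((lc (N + 1) y i : ℝ) - lc (N + 1) y j + 1) =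
        ((lc (N + 1) y i : ℝ) + 1 - lc (N + 1) y k) * ∏ j ∈ (range N).erase k,
          ((lc (N + 1) y i : ℝ) - lc (N + 1) y j + 1) := by
      rw [← Finset.mul_prod_erase (range N) _ (mem_range.2 hkN)]
      ring
    show _ = (∏ j ∈ (range N).erase k, ((lc (N + 1) y i : ℝ) - lc (N + 1) y j + 1)) / _
    rw [h3, div_div, mul_comm (∏ j ∈ (range (N + 1)).erase i, _), mul_assoc,
      mul_div_mul_left _ _ e1]
  rw [hsum]
  have hfin : ∀ a b : ℝ, a = - (1 / Qr (N + 1) y k) → a + b = 0 → b = 1 / Qr (N + 1) y k := by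
    intro a b h1 h2
    linarith
  exact hfin _ _ hfirst key

end Pool.Agent.FPF
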